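import Mathlib

/-! Colliding orbits of `g(z) + λ` over the algebraic closure of a finite field: the set
`C_g(α₁, α₂; β)` is infinite when `β ∈ {α₁, α₂}` and `g` permutes all extensions of degree prime
to some prime `r`. -/

set_option autoImplicit false

namespace Pool.Agent.Results.MP_e06cf1_nt.PermutingCase

open Polynomial

/-- The set `C_g(α₁, α₂; β)` of parameters `λ` in the algebraic closure with
`g_λ^m(α₁) = g_λ^n(α₂) = β` for some `m, n ≥ 1`, where `g_λ(z) = g(z) + λ`. -/
def Coll {F : Type} [Field F] (g : F[X]) (α₁ α₂ β : F) : Set (AlgebraicClosure F) :=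
  {l | ∃ m n : ℕ, 1 ≤ m ∧ 1 ≤ n ∧
    (fun z => aeval z g + l)^[m] (algebraMap F _ α₁) = algebraMap F _ β ∧
    (fun z => aeval z g + l)^[n] (algebraMap F _ α₂) = algebraMap F _ β}

/-- `g` is injective on the subfield `{x | x ^ (q ^ k) = x}` with `q ^ k` elements of the algebraic
closure, `q = |F|`; that is, `g` permutes `𝔽_{q^k}`. -/
def Permutes {F : Type} [Field F] (g : F[X]) (k : ℕ) : Prop :=
  Set.InjOn (fun z : AlgebraicClosure F => aeval z g) {x | x ^ (Nat.card F ^ k) = x}

noncomputable def P {F : Type} [Field F] (g : F[X]) (α : F) : ℕ → F[X]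
  | 0 => C α
  | n + 1 => g.comp (P g α n) + X

theorem aeval_P {F K : Type} [Field F] [Field K] [Algebra F K] (g : F[X]) (α : F) (l : K) (n : ℕ) :
    aeval l (P g α n) = (fun z : K => aeval z g + l)^[n] (algebraMap F K α) := by
  induction n with
  | zero => simp [P]
  | succ n ih => simp [P, Function.iterate_succ_apply', ih, aeval_comp]

theorem per {F E : Type} [Field F] [Field E] [Algebra F E] [Finite E] (g : F[X]) (k : ℕ)
    (hk : Nat.card E = Nat.card F ^ k) (hp : Permutes g k) (l z : E) (n : ℕ)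
    (hn : (Nat.card F ^ k).factorial ∣ n) : (fun z : E => aeval z g + l)^[n] z = z := by
  classical
  have := Fintype.ofFinite E
  let ι : E →ₐ[F] AlgebraicClosure F := IsAlgClosed.lift
  have hmem : ∀ a : E, ι a ^ (Nat.card F ^ k) = ι a := by
    intro a
    rw [← map_pow, ← hk, Nat.card_eq_fintype_card, FiniteField.pow_card]
  have hinj : Function.Injective (fun z : E => aeval z g + l) := by
    intro a b hab
    have h : aeval a g = aeval b g := add_right_cancel hab
    apply ι.toRingHom.injective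
    apply hp (hmem a) (hmem b)
    show aeval (ι a) g = aeval (ι b) g
    rw [aeval_algHom_apply, aeval_algHom_apply, h]
  let e : Equiv.Perm E := Equiv.ofBijective _ (Finite.injective_iff_bijective.1 hinj)
  have he : e ^ n = 1 := by
    obtain ⟨t, rfl⟩ := hn
    rw [pow_mul, ← hk, ← Nat.card_perm, pow_card_eq_one', one_pow]
  have h2 : (fun z : E => aeval z g + l)^[n] z = (e ^ n) z := by
    rw [Equiv.Perm.coe_pow]; rfl
  rw [h2, he]; rfl

theorem natDegree_P {F : Type} [Field F] (g : F[X]) (hd : 2 ≤ g.natDegree) (α : F) (n : ℕ) :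
    (P g α (n + 1)).natDegree = g.natDegree ^ n := by
  induction n with
  | zero =>
    simp only [P, pow_zero]
    rw [comp_C, add_comm, natDegree_X_add_C]
  | succ n ih =>
    have h1 : (g.comp (P g α (n + 1))).natDegree = g.natDegree ^ (n + 1) := by
      rw [natDegree_comp, ih, pow_succ, mul_comm]
    have h2 : 1 < g.natDegree ^ (n + 1) := Nat.one_lt_pow (by omega) (by omega)
    show (g.comp (P g α (n + 1)) + X).natDegree = _
    rw [natDegree_add_eq_left_of_natDegree_lt (by rw [h1, natDegree_X]; exact h2), h1]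

theorem exists_factor {F : Type} [Field F] (r : ℕ) (Q : F[X]) (h : ¬ r ∣ Q.natDegree) :
    ∃ g : F[X], Irreducible g ∧ g ∣ Q ∧ ¬ r ∣ g.natDegree := by
  induction Q using WfDvdMonoid.induction_on_irreducible with
  | zero => simp at h
  | unit u hu => rw [natDegree_eq_zero_of_isUnit hu] at h; simp at h
  | mul a i ha hi ih =>
    by_cases hr : r ∣ i.natDegree
    · have : ¬ r ∣ a.natDegree := by
        intro h2
        apply h
        rw [natDegree_mul hi.ne_zero ha]
        exact dvd_add hr h2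
      obtain ⟨g, hg, hga, hgr⟩ := ih this
      exact ⟨g, hg, hga.mul_left _, hgr⟩
    · exact ⟨i, hi, dvd_mul_right _ _, hr⟩

theorem per_root {F : Type} [Field F] [Finite F] (g f : F[X]) [hf : Fact (Irreducible f)]
    (hp : Permutes g f.natDegree) (z : AdjoinRoot f) (n : ℕ)
    (hn : (Nat.card F ^ f.natDegree).factorial ∣ n) :
    (fun z : AdjoinRoot f => aeval z g + AdjoinRoot.root f)^[n] z = z := by
  let pb := AdjoinRoot.powerBasis hf.out.ne_zero
  have : Module.Finite F (AdjoinRoot f) := pb.finite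
  have : Finite (AdjoinRoot f) := Module.finite_of_finite F
  have hcard : Nat.card (AdjoinRoot f) = Nat.card F ^ f.natDegree := by
    rw [Module.natCard_eq_pow_finrank (K := F), pb.finrank]; rfl
  exact per g _ hcard hp _ _ _ hn

theorem core {F : Type} [Field F] [Finite F] (g : F[X]) (hd : 2 ≤ g.natDegree) (r : ℕ)
    (hr : r.Prime) (hrd : ¬ r ∣ g.natDegree ∨ derivative g = 0)
    (hp : ∀ k, ¬ r ∣ k → Permutes g k) (α β : F) (M : ℕ) :
    ∃ n : ℕ, 1 ≤ n ∧ ∃ f : F[X], Irreducible f ∧ f ∣ P g α n - C β ∧ M < f.natDegree ∧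
      ¬ r ∣ f.natDegree := by
  have hq : 1 ≤ Nat.card F := Nat.card_pos
  have hr1 : ¬ r ∣ 1 := fun h => hr.one_lt.ne' (Nat.dvd_one.1 h)
  by_cases hab : α = β
  · subst hab
    set k := r * M + 1 with hk
    have hkM : M < k := by
      have : M ≤ r * M := Nat.le_mul_of_pos_left _ hr.pos
      omega
    have hrk : ¬ r ∣ k := fun h => hr1 ((Nat.dvd_add_right (dvd_mul_right r M)).1 h)
    obtain ⟨p, hp'⟩ := CharP.exists F
    have := Fact.mk (CharP.char_is_prime F p)
    have : NeZero k := ⟨by omega⟩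
    let K := FiniteField.Extension F p k
    have : Finite K := Module.finite_of_finite F
    have hcard : Nat.card K = Nat.card F ^ k := FiniteField.natCard_extension F p k
    obtain ⟨l, hl⟩ := Field.exists_primitive_element F K
    have hint : IsIntegral F l := Algebra.IsIntegral.isIntegral l
    have hdeg : (minpoly F l).natDegree = k := by
      rw [(Field.primitive_element_iff_minpoly_natDegree_eq F l).1 hl]
      exact FiniteField.finrank_extension F p k
    refine ⟨(Nat.card F ^ k).factorial, Nat.factorial_pos _, minpoly F l,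
      minpoly.irreducible hint, ?_, by rw [hdeg]; exact hkM, by rw [hdeg]; exact hrk⟩
    apply minpoly.dvd
    rw [map_sub, aeval_P, aeval_C, per g k hcard (hp k hrk) _ _ _ dvd_rfl, sub_self]
  by_cases hrd' : r ∣ g.natDegree
  · have hg' : derivative g = 0 := hrd.resolve_left (not_not.2 hrd')
    set N := (Nat.card F ^ (M + 1)).factorial with hN
    have hN0 : N ≠ 0 := Nat.factorial_ne_zero _
    have hdeg : (P g α (N + 1) - C β).natDegree = g.natDegree ^ N := by
      rw [natDegree_sub_C, natDegree_P g hd]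
    have hroot : IsRoot (P g α (N + 1) - C β) (β - g.eval α) := by
      have h1 := aeval_P g α (β - g.eval α) (N + 1)
      rw [Function.iterate_succ_apply', per g 1 (pow_one _).symm (hp 1 hr1) _ _ N
        (Nat.factorial_dvd_factorial (Nat.pow_le_pow_right hq (by omega)))] at h1
      rw [IsRoot.def, eval_sub, eval_C, ← coe_aeval_eq_eval, h1]
      simp
    obtain ⟨R, hR⟩ := dvd_iff_isRoot.2 hroot
    have hder : derivative (P g α (N + 1) - C β) = 1 := by
      show derivative (g.comp (P g α N) + X - C β) = 1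
      rw [derivative_sub, derivative_add, derivative_comp, derivative_C, derivative_X, hg']
      simp
    have hR1 : R.eval (β - g.eval α) = 1 := by
      have h1 := congrArg (eval (β - g.eval α)) hder
      rw [hR, derivative_mul, derivative_X_sub_C, one_mul, eval_add, eval_mul, eval_sub, eval_X,
        eval_C, sub_self, zero_mul, add_zero, eval_one] at h1
      exact h1
    have hR0 : R ≠ 0 := by
      intro h; rw [h] at hR1; simp at hR1
    have hRdeg : 1 + R.natDegree = g.natDegree ^ N := by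
      rw [← hdeg, hR, natDegree_mul (X_sub_C_ne_zero _) hR0, natDegree_X_sub_C]
    obtain ⟨f, hf, hfR, hfr⟩ := exists_factor r R (by
      intro h
      have h2 : r ∣ 1 + R.natDegree := by rw [hRdeg]; exact hrd'.trans (dvd_pow_self _ hN0)
      exact hr1 ((Nat.dvd_add_left h).1 h2))
    have hfQ : f ∣ P g α (N + 1) - C β := by rw [hR]; exact hfR.mul_left _
    refine ⟨N + 1, by omega, f, hf, hfQ, ?_, hfr⟩
    by_contra hle
    have hle : f.natDegree ≤ M + 1 := by omega
    have := Fact.mk hf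
    have h0 : aeval (AdjoinRoot.root f) (P g α (N + 1) - C β) = 0 := by
      rw [AdjoinRoot.aeval_eq]; exact AdjoinRoot.mk_eq_zero.2 hfQ
    have h0' : aeval (AdjoinRoot.root f) R = 0 := by
      rw [AdjoinRoot.aeval_eq]; exact AdjoinRoot.mk_eq_zero.2 hfR
    rw [map_sub, aeval_P, aeval_C, Function.iterate_succ_apply', per_root g f (hp _ hfr) _ N
      (Nat.factorial_dvd_factorial (Nat.pow_le_pow_right hq hle)), aeval_algebraMap_apply,
      coe_aeval_eq_eval] at h0
    have h3 : AdjoinRoot.root f = algebraMap F (AdjoinRoot f) (β - g.eval α) := by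
      rw [map_sub]; linear_combination h0
    rw [h3, aeval_algebraMap_apply, coe_aeval_eq_eval, hR1, map_one] at h0'
    exact one_ne_zero h0'
  · obtain ⟨m, hm⟩ : ∃ m, (Nat.card F ^ M).factorial = m + 1 :=
      ⟨_, (Nat.succ_pred_eq_of_pos (Nat.factorial_pos _)).symm⟩
    have hdeg : (P g α (m + 1) - C β).natDegree = g.natDegree ^ m := by
      rw [natDegree_sub_C, natDegree_P g hd]
    obtain ⟨f, hf, hfQ, hfr⟩ := exists_factor r (P g α (m + 1) - C β)
      (by rw [hdeg]; exact fun h => hrd' (hr.dvd_of_dvd_pow h))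
    refine ⟨m + 1, by omega, f, hf, hfQ, ?_, hfr⟩
    by_contra hle
    have hle : f.natDegree ≤ M := by omega
    have := Fact.mk hf
    have h0 : aeval (AdjoinRoot.root f) (P g α (m + 1) - C β) = 0 := by
      rw [AdjoinRoot.aeval_eq]; exact AdjoinRoot.mk_eq_zero.2 hfQ
    rw [map_sub, aeval_P, aeval_C, per_root g f (hp _ hfr) _ _
      (by rw [← hm]; exact Nat.factorial_dvd_factorial (Nat.pow_le_pow_right hq hle)),
      sub_eq_zero] at h0
    exact hab ((algebraMap F (AdjoinRoot f)).injective h0)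

theorem main {F : Type} [Field F] [Finite F] (g : F[X]) (hd : 2 ≤ g.natDegree) (r : ℕ)
    (hr : r.Prime) (hrd : ¬ r ∣ g.natDegree ∨ derivative g = 0)
    (hp : ∀ k, ¬ r ∣ k → Permutes g k) (α β : F) : (Coll g β α β).Infinite := by
  intro hfin
  obtain ⟨M, hM⟩ := (hfin.image fun l => (minpoly F l).natDegree).bddAbove
  obtain ⟨n, hn, f, hf, hfQ, hMf, hfr⟩ := core g hd r hr hrd hp α β M
  have := Fact.mk hf
  have h1 : f ∣ P g β (Nat.card F ^ f.natDegree).factorial - C β := by
    rw [← AdjoinRoot.mk_eq_zero, ← AdjoinRoot.aeval_eq, map_sub, aeval_P, aeval_C,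
      per_root g f (hp _ hfr) _ _ dvd_rfl, sub_self]
  obtain ⟨l, hl⟩ := IsAlgClosed.exists_aeval_eq_zero (AlgebraicClosure F) f
    (by rw [degree_eq_natDegree hf.ne_zero]; exact_mod_cast (by omega : f.natDegree ≠ 0))
  have hmem : l ∈ Coll g β α β := by
    refine ⟨(Nat.card F ^ f.natDegree).factorial, n, Nat.factorial_pos _, hn, ?_, ?_⟩
    · have h2 := aeval_eq_zero_of_dvd_aeval_eq_zero h1 hl
      rwa [map_sub, aeval_P, aeval_C, sub_eq_zero] at h2
    · have h2 := aeval_eq_zero_of_dvd_aeval_eq_zero hfQ hl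
      rwa [map_sub, aeval_P, aeval_C, sub_eq_zero] at h2
  have h3 : (minpoly F l).natDegree ≤ M := hM ⟨l, hmem, rfl⟩
  rw [← minpoly.eq_of_irreducible hf hl, natDegree_mul_leadingCoeff_inv _ hf.ne_zero] at h3
  omega

theorem permutes_pow {F : Type} [Field F] [Finite F] (d k : ℕ) (hd : d ≠ 0)
    (hc : Nat.Coprime d (Nat.card F ^ k - 1)) : Permutes (X ^ d : F[X]) k := by
  intro a ha b hb hab
  simp only [map_pow, aeval_X] at hab
  by_cases hb0 : b = 0
  · subst hb0
    rw [zero_pow hd] at hab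
    exact (pow_eq_zero_iff hd).1 hab
  have ha0 : a ≠ 0 := by
    rintro rfl
    rw [zero_pow hd] at hab
    exact hb0 ((pow_eq_zero_iff hd).1 hab.symm)
  obtain ⟨m, hm⟩ : ∃ m, Nat.card F ^ k = m + 1 :=
    ⟨_, (Nat.succ_pred_eq_of_pos (Nat.pow_pos Nat.card_pos)).symm⟩
  rw [Set.mem_ofPred_eq, hm, pow_succ] at ha hb
  rw [hm, Nat.add_sub_cancel] at hc
  have ha' : a ^ m = 1 := mul_right_cancel₀ ha0 (by rw [ha, one_mul])
  have hb' : b ^ m = 1 := mul_right_cancel₀ hb0 (by rw [hb, one_mul])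
  have h1 : (a / b) ^ d = 1 := by rw [div_pow, hab, div_self (pow_ne_zero _ hb0)]
  have h2 : (a / b) ^ m = 1 := by rw [div_pow, ha', hb', div_one]
  have h3 : (a / b) ^ (Nat.gcd d m) = 1 := pow_gcd_eq_one.2 ⟨h1, h2⟩
  rw [hc, pow_one] at h3
  exact (div_eq_one_iff_eq hb0).1 h3

theorem dvd_iff_pow (l q k : ℕ) (hq : 1 ≤ q) : l ∣ q ^ k - 1 ↔ (q : ZMod l) ^ k = 1 := by
  have h1 : 1 ≤ q ^ k := Nat.one_le_pow _ _ hq
  rw [← ZMod.natCast_eq_zero_iff, Nat.cast_sub h1, sub_eq_zero]
  push_cast
  rfl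

theorem mono {F : Type} [Field F] [Finite F] (p : ℕ) [CharP F p] (d : ℕ) (hd : 2 ≤ d) (r : ℕ)
    (hr : r.Prime)
    (hord : ∀ l : ℕ, l.Prime → l ∣ d → l ≠ p → r ∣ orderOf (Nat.card F : ZMod l)) :
    (¬ r ∣ (X ^ d : F[X]).natDegree ∨ derivative (X ^ d : F[X]) = 0) ∧
      ∀ k, ¬ r ∣ k → Permutes (X ^ d : F[X]) k := by
  have hq : 1 ≤ Nat.card F := Nat.card_pos
  have hpp : p.Prime := CharP.char_is_prime F p
  have := Fintype.ofFinite F
  obtain ⟨e, -, he⟩ := FiniteField.card F p
  rw [← Nat.card_eq_fintype_card] at he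
  have hpq : p ∣ Nat.card F := by rw [he]; exact dvd_pow_self _ e.ne_zero
  constructor
  · rw [natDegree_X_pow]
    by_cases hrd : r ∣ d
    · right
      have hrp : r = p := by
        by_contra hrp
        have := Fact.mk hr
        have hrq : ¬ r ∣ Nat.card F := by
          rw [he]
          exact fun h => hrp ((Nat.prime_dvd_prime_iff_eq hr hpp).1 (hr.dvd_of_dvd_pow h))
        have hq0 : (Nat.card F : ZMod r) ≠ 0 := fun h => hrq ((ZMod.natCast_eq_zero_iff _ _).1 h)
        have h1 : orderOf (Nat.card F : ZMod r) ∣ r - 1 :=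
          orderOf_dvd_of_pow_eq_one (ZMod.pow_card_sub_one_eq_one hq0)
        have h2 := Nat.le_of_dvd (by have := hr.two_le; omega) ((hord r hr hrd hrp).trans h1)
        have := hr.two_le
        omega
      rw [derivative_X_pow, (CharP.cast_eq_zero_iff F p d).2 (hrp ▸ hrd)]
      simp
    · exact Or.inl hrd
  · intro k hk
    have hk0 : k ≠ 0 := fun h => hk (by rw [h]; exact dvd_zero _)
    apply permutes_pow d k (by omega)
    apply Nat.coprime_of_dvd
    intro l hl hld hl2
    have hpow := (dvd_iff_pow l _ _ hq).1 hl2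
    have hlp : l ≠ p := by
      rintro rfl
      have := Fact.mk hl
      rw [(ZMod.natCast_eq_zero_iff _ _).2 hpq, zero_pow hk0] at hpow
      exact zero_ne_one hpow
    exact hk ((hord l hl hld hlp).trans (orderOf_dvd_of_pow_eq_one hpow))

/-- Let `F` be a finite field with `q` elements and characteristic `p`, `g ∈ F[z]` of degree
`d ≥ 2`, and `α₁, α₂, β ∈ F` with `β = α₁` or `β = α₂`. Then `C_g(α₁, α₂; β)` is infinite if
(A) for some prime `r` with `r ∤ d` or `g' = 0`, `g` permutes `𝔽_{q^k}` whenever `r ∤ k`; or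
(B) `g = z ^ d`, `gcd(d, q - 1) = 1` and `d = l ^ a * p ^ b` with `l` prime; or
(C) `g = z ^ d` and some prime `r` divides the order of `q` modulo every prime `l ∣ d`, `l ≠ p`. -/
theorem result (F : Type) [Field F] [Finite F] (p : ℕ) [CharP F p] (g : F[X])
    (hd : 2 ≤ g.natDegree)
    (h : (∃ r : ℕ, r.Prime ∧ (¬ r ∣ g.natDegree ∨ derivative g = 0) ∧
        ∀ k : ℕ, ¬ r ∣ k → Permutes g k) ∨
      (g = X ^ g.natDegree ∧ Nat.Coprime g.natDegree (Nat.card F - 1) ∧
        ∃ l a b : ℕ, l.Prime ∧ g.natDegree = l ^ a * p ^ b) ∨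
      (g = X ^ g.natDegree ∧ ∃ r : ℕ, r.Prime ∧ ∀ l : ℕ, l.Prime → l ∣ g.natDegree → l ≠ p →
        r ∣ orderOf (Nat.card F : ZMod l)))
    (α₁ α₂ β : F) (hβ : β = α₁ ∨ β = α₂) : (Coll g α₁ α₂ β).Infinite := by
  have hq : 1 ≤ Nat.card F := Nat.card_pos
  have hpp : p.Prime := CharP.char_is_prime F p
  have hC : ∀ r : ℕ, r.Prime → g = X ^ g.natDegree →
      (∀ l : ℕ, l.Prime → l ∣ g.natDegree → l ≠ p → r ∣ orderOf (Nat.card F : ZMod l)) →
      (¬ r ∣ g.natDegree ∨ derivative g = 0) ∧ ∀ k : ℕ, ¬ r ∣ k → Permutes g k := by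
    intro r hr hg hord
    have := mono p g.natDegree hd r hr hord
    rwa [← hg] at this
  obtain ⟨r, hr, h1, h2⟩ : ∃ r : ℕ, r.Prime ∧ (¬ r ∣ g.natDegree ∨ derivative g = 0) ∧
      ∀ k : ℕ, ¬ r ∣ k → Permutes g k := by
    rcases h with h | ⟨hg, hc, l, a, b, hl, hdl⟩ | ⟨hg, r, hr, hord⟩
    · exact h
    · have hll : ∀ l' : ℕ, l'.Prime → l' ∣ g.natDegree → l' ≠ p → l' = l := by
        intro l' hl' hd' hl'p
        rw [hdl] at hd'
        rcases (Nat.Prime.dvd_mul hl').1 hd' with h4 | h4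
        · exact (Nat.prime_dvd_prime_iff_eq hl' hl).1 (hl'.dvd_of_dvd_pow h4)
        · exact absurd ((Nat.prime_dvd_prime_iff_eq hl' hpp).1 (hl'.dvd_of_dvd_pow h4)) hl'p
      by_cases hld : l ∣ g.natDegree
      · have h2 : orderOf (Nat.card F : ZMod l) ≠ 1 := by
          intro h
          have h3 : l ∣ Nat.card F ^ 1 - 1 :=
            (dvd_iff_pow l _ 1 hq).2 (by rw [pow_one]; exact orderOf_eq_one_iff.1 h)
          rw [pow_one] at h3
          exact hl.one_lt.ne' (Nat.eq_one_of_dvd_coprimes hc hld h3)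
        obtain ⟨r, hr, hro⟩ := Nat.exists_prime_and_dvd h2
        refine ⟨r, hr, hC r hr hg fun l' hl' hd' hl'p => ?_⟩
        obtain rfl := hll l' hl' hd' hl'p
        exact hro
      · refine ⟨2, Nat.prime_two, hC 2 Nat.prime_two hg fun l' hl' hd' hl'p => ?_⟩
        obtain rfl := hll l' hl' hd' hl'p
        exact absurd hd' hld
    · exact ⟨r, hr, hC r hr hg hord⟩
  rcases hβ with rfl | rfl
  · exact main g hd r hr h1 h2 α₂ β
  · refine (main g hd r hr h1 h2 α₁ β).mono ?_
    rintro l ⟨m, n, hm, hn, h3, h4⟩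
    exact ⟨n, m, hn, hm, h4, h3⟩

end Pool.Agent.Results.MP_e06cf1_nt.PermutingCase
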